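import Pool.Agent.R836.RD.Main

set_option autoImplicit false

/-!
# Parity patterns of the partitions without parts `≡ 3 (mod 6)` on all progressions (MP_57720d_nt)

Let `a n` be the number of partitions of `n` in which no part is congruent to 3 modulo 6. For every
`M ≥ 1` there is a constant `C` such that every linear combination `∑_{i < K} c_i a (n + i)` modulo 2,
`n ≡ ρ (mod M)`, in which some `c_i ≠ 0` belongs to a class `ρ + i` modulo `M` that is not contained in
the classes 2, 3 modulo 4 (where `a` is even), takes both values in every interval `[A, C (A + K)]`.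
For `K = 1`: on every progression of Q1 both parities occur, in each of these intervals.

Method. That `a` takes odd values on every progression that contains a term `≡ 0, 1 (mod 4)` and has
a difference divisible by 4 is proved in `Results/MP_24de68_nt/NoEvenProgression` (described there). The
patterns then follow from the starting files (`Results/MP_a3366f_nt/EtaQuotients`): transcendence
measure of `D = X ∏ (1 - X ^ n) ^ 24` modulo 2 and algebraicity of all sections over `F_2(D)`.
-/

namespace Pool.Agent.Results.MP_57720d_nt.PatternsOnProgressions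

open PowerSeries Pool.Agent.R836.RD

/-- the number of partitions of `n` in which no part is congruent to 3 modulo 6 -/
def a (n : ℕ) : ℕ :=
  ((Finset.univ : Finset (Nat.Partition n)).filter fun p => ∀ i ∈ p.parts, i % 6 ≠ 3).card

private theorem coeff_Ph (n : ℕ) : coeff n Ph = (a n : ZMod 2) := by
  have h := congrArg (coeff n) PART.genThree
  rw [coeff_mk] at h
  exact h.symm

theorem result (M : ℕ) (hM : 0 < M) : ∃ C : ℕ, ∀ (K : ℕ) (c : ℕ → ZMod 2) (ρ : ℕ),
    (∃ i < K, c i ≠ 0 ∧ ∃ N, N ≡ ρ + i [MOD M] ∧ (N % 4 = 0 ∨ N % 4 = 1)) →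
    ∀ (κ : ZMod 2) (A : ℕ), ∃ n, A ≤ n ∧ n ≤ C * (A + K) ∧ n ≡ ρ [MOD M] ∧
      ∑ i ∈ Finset.range K, c i * (a (n + i) : ZMod 2) = κ := by
  obtain ⟨C, hC⟩ := pat1 Ph 4 sec_Ph (by norm_num) M hM
  refine ⟨C, fun K c ρ h κ A => ?_⟩
  obtain ⟨i, hi, hci, N, hN, hN4⟩ := h
  have key : ∃ N' : ℕ, N' ≡ N [MOD M] ∧ coeff N' Ph ≠ 0 := by
    rcases hN4 with h0 | h0
    · obtain ⟨n, -, h1⟩ := full_Pa M (N / 4) hM 0
      refine ⟨4 * (M * n + N / 4), ?_, ?_⟩
      · have e : 4 * (M * n + N / 4) = N + M * (4 * n) := by
          rw [mul_add, show 4 * (M * n) = M * (4 * n) by ring]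
          omega
        rw [e]
        exact (Nat.modEq_iff_dvd' (Nat.le_add_right _ _)).2 (by
          rw [Nat.add_sub_cancel_left]
          exact Dvd.intro _ rfl) |>.symm
      · rw [coeff_Ph]
        have h2 := (part.1 (M * n + N / 4)).1
        rw [h1] at h2
        intro h3
        exact one_ne_zero (h2.symm.trans h3)
    · obtain ⟨n, -, h1⟩ := full_Pb M (N / 4) hM 0
      refine ⟨4 * (M * n + N / 4) + 1, ?_, ?_⟩
      · have e : 4 * (M * n + N / 4) + 1 = N + M * (4 * n) := by
          rw [mul_add, show 4 * (M * n) = M * (4 * n) by ring]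
          omega
        rw [e]
        exact (Nat.modEq_iff_dvd' (Nat.le_add_right _ _)).2 (by
          rw [Nat.add_sub_cancel_left]
          exact Dvd.intro _ rfl) |>.symm
      · rw [coeff_Ph]
        have h2 := (part.1 (M * n + N / 4)).2
        rw [h1] at h2
        intro h3
        exact one_ne_zero (h2.symm.trans h3)
  obtain ⟨N', hN', hN'0⟩ := key
  obtain ⟨n, h1, h2, h3, h4⟩ := hC K c ρ ⟨i, hi, hci, N', hN'.trans hN, hN'0⟩ κ A
  refine ⟨n, h1, h2, h3, ?_⟩
  rw [← h4]
  refine Finset.sum_congr rfl fun i _ => ?_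
  rw [coeff_Ph]

end Pool.Agent.Results.MP_57720d_nt.PatternsOnProgressions
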