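import Pool.Agent.R978.PN.D

set_option autoImplicit false

/-!
# Parity of partitions with no part `≡ 3 mod 6` and randomly deleted parts (MP_57720d_nt)

Let `R` be a random set of positive integers, the events `a ∈ R` being independent, and suppose that
`K √(log a / a) ≤ P (a ∈ R) ≤ 1 - K √(log a / a)` for every `K` and all large `a` not congruent to 3
modulo 6. Let `a_R n` be the number of partitions of `n` with no part `≡ 3 mod 6` and no part in `R`.
Almost surely, for all `A ≥ 1` and `B ≥ 0` and every `L`, every word of length `L` occurs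
with frequency `2 ^ (-L)` among the parities of `a_R (A k + B), …, a_R (A k + B + L - 1)`; the same is
true along every fixed strictly increasing sequence.

Method: as in `Pool.Agent.Results.MP_6d7a37_nt.RandomlyDeletedParts`; in the products over the `a` one
uses only the `a ∈ (u / 2, u]` for which neither `a` nor `u - a` is congruent to 3 modulo 6. Among any
three consecutive integers there is such an `a`.
-/

namespace Pool.Agent.Results.MP_57720d_nt.RandomlyDeletedParts

open MeasureTheory ProbabilityTheory Filter Topology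

/-- the number of partitions of `n` with no part congruent to 3 modulo 6 and no part in `R` -/
noncomputable def avoiding (R : Set ℕ) (n : ℕ) : ℕ :=
  Nat.card {p : Nat.Partition n // ∀ a ∈ p.parts, a % 6 ≠ 3 ∧ a ∉ R}

theorem result {Ω : Type} [MeasurableSpace Ω] {P : Measure Ω} [IsProbabilityMeasure P]
    (R : Ω → Set ℕ) (hm : ∀ a : ℕ, MeasurableSet {ω | a ∈ R ω})
    (hi : iIndepSet (fun a : ℕ => {ω | a ∈ R ω}) P)
    (hR : ∀ K : ℝ, ∀ᶠ a : ℕ in atTop, a % 6 ≠ 3 → K * √(Real.log a / a) ≤ P.real {ω | a ∈ R ω} ∧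
      P.real {ω | a ∈ R ω} ≤ 1 - K * √(Real.log a / a)) :
    (∀ᵐ ω ∂P, ∀ (A B : ℕ), 1 ≤ A → ∀ (L : ℕ) (w : Fin L → ZMod 2),
      Tendsto (fun x : ℕ => (((Finset.range x).filter fun k => ∀ i : Fin L,
        (avoiding (R ω) (A * k + B + i) : ZMod 2) = w i).card : ℝ) / x)
        atTop (𝓝 ((1 / 2) ^ L))) ∧
    ∀ s : ℕ → ℕ, StrictMono s → ∀ᵐ ω ∂P, ∀ (L : ℕ) (w : Fin L → ZMod 2),
      Tendsto (fun x : ℕ => (((Finset.range x).filter fun k => ∀ i : Fin L,
        (avoiding (R ω) (s k + i) : ZMod 2) = w i).card : ℝ) / x)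
        atTop (𝓝 ((1 / 2) ^ L)) := by
  have key : ∀ s : ℕ → ℕ, StrictMono s → ∀ᵐ ω ∂P, ∀ (L : ℕ) (w : Fin L → ZMod 2),
      Tendsto (fun x : ℕ => (((Finset.range x).filter fun k => ∀ i : Fin L,
        (avoiding (R ω) (s k + i) : ZMod 2) = w i).card : ℝ) / x)
        atTop (𝓝 ((1 / 2) ^ L)) := by
    intro s hs
    have h1 := Pool.Agent.R978.PN.main 6 3 (by norm_num) R hm hi
      (fun K => (hR K).mono fun a ha hc => ha hc) hs
    have h2 : ∀ (Q : Set ℕ) (n : ℕ), Pool.Agent.R978.PN.pcl 6 3 Q n = avoiding Q n :=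
      fun Q n => rfl
    simp only [h2] at h1
    filter_upwards [h1] with ω hω L w
    have h3 := hω 2 (by norm_num) L w
    rwa [Nat.cast_ofNat] at h3
  refine ⟨?_, key⟩
  rw [ae_all_iff]
  intro A
  rw [ae_all_iff]
  intro B
  by_cases hA : 1 ≤ A
  · have hs : StrictMono fun k : ℕ => A * k + B := by
      intro k k' h
      have := Nat.mul_lt_mul_of_pos_left h hA
      show A * k + B < A * k' + B
      omega
    filter_upwards [key _ hs] with ω hω _
    exact hω
  · exact Eventually.of_forall fun ω h => absurd h hA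

end Pool.Agent.Results.MP_57720d_nt.RandomlyDeletedParts
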